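import Pool.Agent.N566.VV.Defs

/-!
# Project VV: state models, zigzags and slides (`S_ZS`)
-/

set_option autoImplicit false
set_option linter.unusedSectionVars false

namespace Pool.Agent.N221.VV

open Pool.Agent.H835R2.Knot Pool.Agent.N566.VV

section

variable {ι : Type}

/-- three labels in place of the one at `i` -/
def S3 (i : ℕ) (x y z : ι) (σ : ℕ → ι) : ℕ → ι := fun p =>
  if p < i then σ p else if p = i then x else if p = i + 1 then y else if p = i + 2 then z
    else σ (p - 2)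

/-- one label in place of the three at `i` -/
def S1 (i : ℕ) (x : ι) (σ : ℕ → ι) : ℕ → ι := fun p =>
  if p < i then σ p else if p = i then x else σ (p + 2)

theorem upd_ins1 (i : ℕ) (x x' y z : ι) (σ : ℕ → ι) :
    updS (i + 1) y z (insS i x x' σ) = S3 i x y z σ := by
  funext p
  simp only [updS, insS, S3]
  split_ifs <;> first | rfl | omega

theorem upd_ins2 (i : ℕ) (x y w w' : ι) (σ : ℕ → ι) :
    updS i x y (insS (i + 1) w w' σ) = S3 i x y w' σ := by
  funext p
  simp only [updS, insS, S3]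
  split_ifs <;> first | rfl | omega

theorem del_upd1 (i : ℕ) (y z : ι) (σ : ℕ → ι) : delS i (updS (i + 1) y z σ) = S1 i z σ := by
  funext p
  simp only [updS, delS, S1]
  split_ifs <;> first | rfl | omega

theorem del_upd2 (i : ℕ) (y z : ι) (σ : ℕ → ι) : delS (i + 1) (updS i y z σ) = S1 i y σ := by
  funext p
  simp only [updS, delS, S1]
  split_ifs <;> first | rfl | omega

theorem del_ins1 (i : ℕ) (y : ι) (σ : ℕ → ι) : delS (i + 1) (insS i (σ i) y σ) = σ := by
  funext p
  simp only [insS, delS]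
  split_ifs with h1 h2 h3 h4 h5 h6 h7
  · rfl
  · rw [h3]
  · omega
  · omega
  · omega
  · omega
  · omega
  · rfl

theorem del_ins2 (i : ℕ) (y : ι) (σ : ℕ → ι) : delS i (insS (i + 1) y (σ i) σ) = σ := by
  funext p
  simp only [insS, delS]
  split_ifs with h1 h2 h3 h4 h5 h6 h7
  all_goals first
    | rfl
    | omega
    | (congr 1; omega)

theorem ins_a (i : ℕ) (x y : ι) (σ : ℕ → ι) : insS i x y σ i = x := by
  simp [insS]

theorem ins_b (i : ℕ) (x y : ι) (σ : ℕ → ι) : insS i x y σ (i + 1) = y := by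
  simp [insS]

theorem ins_c (i : ℕ) (x y : ι) (σ : ℕ → ι) : insS i x y σ (i + 1 + 1) = σ i := by
  unfold insS
  rw [if_neg (by omega), if_neg (by omega), if_neg (by omega)]
  rfl

theorem ins_d (i : ℕ) (x y : ι) (σ : ℕ → ι) : insS (i + 1) x y σ i = σ i := by
  simp [insS]

theorem upd_a (i : ℕ) (x y : ι) (σ : ℕ → ι) : updS i x y σ i = x := by
  simp [updS]

theorem upd_b (i : ℕ) (x y : ι) (σ : ℕ → ι) : updS i x y σ (i + 1) = y := by
  simp [updS]

theorem upd_c (i : ℕ) (x y : ι) (σ : ℕ → ι) : updS i x y σ (i + 1 + 1) = σ (i + 1 + 1) := by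
  unfold updS
  rw [if_neg (by omega), if_neg (by omega)]

theorem upd_d (i : ℕ) (x y : ι) (σ : ℕ → ι) : updS (i + 1) x y σ i = σ i := by
  unfold updS
  rw [if_neg (by omega), if_neg (by omega)]

variable [Fintype ι] [DecidableEq ι]

theorem zig1 (T : Dat ι) (hT : T.Ok) (i : ℕ) (f : F ι) : Bl T i (Dl T (i + 1) f) = f := by
  funext σ
  unfold Bl Dl
  rw [Finset.sum_eq_single (σ i)]
  · rw [ins_b, ins_c, if_pos (hT.rr _).symm, del_ins1, ← mul_assoc, hT.zz, one_mul]
  · intro x _ hx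
    rw [ins_b, ins_c, if_neg, mul_zero]
    rw [hT.rr]
    exact fun h => hx h.symm
  · intro h
    exact absurd (Finset.mem_univ _) h

theorem zig2 (T : Dat ι) (hT : T.Ok) (i : ℕ) (f : F ι) : Bl T (i + 1) (Dl T i f) = f := by
  funext σ
  unfold Bl Dl
  rw [Finset.sum_eq_single (T.rev (σ i))]
  · rw [ins_a, ins_d, if_pos rfl, hT.rr, del_ins2, ← mul_assoc]
    have := hT.zz (T.rev (σ i))
    rw [hT.rr] at this
    rw [this, one_mul]
  · intro x _ hx
    rw [ins_a, ins_d, if_neg hx, mul_zero]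
  · intro h
    exact absurd (Finset.mem_univ _) h

theorem slideB (T : Dat ι) (rr : ∀ x, T.rev (T.rev x) = x) (A B : Matrix (ι × ι) (ι × ι) ℂ)
    (h : ∀ a x y z, T.c x * A (T.rev x, a) (y, z) = T.c (T.rev z) * B (a, T.rev z) (x, y))
    (i : ℕ) (f : F ι) : Bl T i (Xl A (i + 1) f) = Bl T (i + 1) (Xl B i f) := by
  funext σ
  have hL : Bl T i (Xl A (i + 1) f) σ
      = ∑ x, ∑ y, ∑ z, T.c x * A (T.rev x, σ i) (y, z) * f (S3 i x y z σ) := by
    unfold Bl Xl
    refine Finset.sum_congr rfl fun x _ => ?_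
    rw [Fintype.sum_prod_type, Finset.mul_sum]
    refine Finset.sum_congr rfl fun y _ => ?_
    rw [Finset.mul_sum]
    refine Finset.sum_congr rfl fun z _ => ?_
    rw [ins_b, ins_c, upd_ins1, mul_assoc]
  have hR : Bl T (i + 1) (Xl B i f) σ
      = ∑ w, ∑ x, ∑ y, T.c w * B (σ i, w) (x, y) * f (S3 i x y (T.rev w) σ) := by
    unfold Bl Xl
    refine Finset.sum_congr rfl fun w _ => ?_
    rw [Fintype.sum_prod_type, Finset.mul_sum]
    refine Finset.sum_congr rfl fun x _ => ?_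
    rw [Finset.mul_sum]
    refine Finset.sum_congr rfl fun y _ => ?_
    rw [ins_a, ins_d, upd_ins2, mul_assoc]
  let e : ι ≃ ι := ⟨T.rev, T.rev, rr, rr⟩
  rw [hL, hR, ← Equiv.sum_comp e (fun w => ∑ x, ∑ y, T.c w * B (σ i, w) (x, y) *
    f (S3 i x y (T.rev w) σ)), Finset.sum_comm]
  symm
  calc ∑ z, ∑ x, ∑ y, T.c (e z) * B (σ i, e z) (x, y) * f (S3 i x y (T.rev (e z)) σ)
      = ∑ z, ∑ x, ∑ y, T.c x * A (T.rev x, σ i) (y, z) * f (S3 i x y z σ) := by
        refine Finset.sum_congr rfl fun z _ => Finset.sum_congr rfl fun x _ =>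
          Finset.sum_congr rfl fun y _ => ?_
        change T.c (T.rev z) * B (σ i, T.rev z) (x, y) * f (S3 i x y (T.rev (T.rev z)) σ) = _
        rw [rr, h]
    _ = ∑ y, ∑ x, ∑ z, T.c x * A (T.rev x, σ i) (y, z) * f (S3 i x y z σ) := by
        rw [Finset.sum_comm]
        have : ∀ x : ι, ∑ z, ∑ y, T.c x * A (T.rev x, σ i) (y, z) * f (S3 i x y z σ)
            = ∑ y, ∑ z, T.c x * A (T.rev x, σ i) (y, z) * f (S3 i x y z σ) :=
          fun x => Finset.sum_comm
        rw [Finset.sum_congr rfl fun x _ => this x, Finset.sum_comm]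

theorem slideD (T : Dat ι) (rr : ∀ x, T.rev (T.rev x) = x) (A B : Matrix (ι × ι) (ι × ι) ℂ)
    (h : ∀ a b e x, T.d a * A (b, e) (T.rev a, x) = T.d (T.rev e) * B (a, b) (x, T.rev e))
    (i : ℕ) (f : F ι) : Xl A (i + 1) (Dl T i f) = Xl B i (Dl T (i + 1) f) := by
  funext σ
  have hD : ∀ (i : ℕ) (f : F ι) (σ : ℕ → ι), Dl T i f σ =
      if σ (i + 1) = T.rev (σ i) then T.d (σ i) * f (delS i σ) else 0 := fun _ _ _ => rfl
  have hL : Xl A (i + 1) (Dl T i f) σ
      = ∑ x, A (σ (i + 1), σ (i + 1 + 1)) (T.rev (σ i), x) * (T.d (σ i) * f (S1 i x σ)) := by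
    unfold Xl
    rw [Fintype.sum_prod_type, Finset.sum_eq_single (T.rev (σ i))]
    · refine Finset.sum_congr rfl fun x _ => ?_
      rw [hD, upd_a, upd_d, if_pos rfl, del_upd1]
    · intro y _ hy
      refine Finset.sum_eq_zero fun x _ => ?_
      rw [hD, upd_a, upd_d, if_neg hy, mul_zero]
    · intro h
      exact absurd (Finset.mem_univ _) h
  have hR : Xl B i (Dl T (i + 1) f) σ
      = ∑ x, B (σ i, σ (i + 1)) (x, T.rev (σ (i + 1 + 1)))
          * (T.d (T.rev (σ (i + 1 + 1))) * f (S1 i x σ)) := by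
    unfold Xl
    rw [Fintype.sum_prod_type]
    refine Finset.sum_congr rfl fun x _ => ?_
    rw [Finset.sum_eq_single (T.rev (σ (i + 1 + 1)))]
    · rw [hD, upd_b, upd_c, if_pos (rr _).symm, del_upd2]
    · intro y _ hy
      rw [hD, upd_b, upd_c, if_neg, mul_zero]
      intro h'
      apply hy
      rw [h', rr]
    · intro h
      exact absurd (Finset.mem_univ _) h
  rw [hL, hR]
  refine Finset.sum_congr rfl fun x _ => ?_
  rw [← mul_assoc, ← mul_assoc, mul_comm (A _ _), mul_comm (B _ _), h]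

theorem Bl_smul (T : Dat ι) (i : ℕ) (k : ℂ) (f : F ι) : Bl T i (k • f) = k • Bl T i f := by
  funext σ
  simp only [Bl, Pi.smul_apply, smul_eq_mul, Finset.mul_sum]
  refine Finset.sum_congr rfl fun x _ => ?_
  ring

end

theorem s_zs : Pool.Agent.N566.VV.S_ZS := by
  intro ι _ _ T hT i b A f
  have hd1 : ∀ (i : ℕ) (b : Bool), ((Piece.birth i b).act A).dir (i + 1) = !b := by
    intro i b
    simp [Piece.act]
  have hd2 : ∀ (i : ℕ) (b : Bool), ((Piece.birth i b).act A).dir (i + 1 + 1) = A.dir i := by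
    intro i b
    unfold Piece.act
    dsimp only
    rw [if_neg (by omega), if_neg (by omega), if_neg (by omega)]
    rfl
  have hd3 : ∀ (i : ℕ) (b : Bool), ((Piece.birth (i + 1) b).act A).dir i = A.dir i := by
    intro i b
    simp [Piece.act]
  have hd4 : ∀ (i : ℕ) (b : Bool), ((Piece.birth i b).act A).dir i = b := by
    intro i b
    simp [Piece.act]
  refine ⟨fun _ => zig1 T hT i f, fun _ => zig2 T hT i f, ?_, ?_, fun hdir => ⟨?_, ?_⟩⟩
  · simp only [opD, opP]
    rw [hd1, hd2, hd3, hd4, Bl_smul, Bl_smul, slideB T hT.rr T.P T.Q hT.sb1]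
    congr 1
    cases b <;> cases A.dir i <;> simp
  · simp only [opD, opP]
    rw [hd1, hd2, hd3, hd4, Bl_smul, Bl_smul, slideB T hT.rr T.Q T.P hT.sb2]
    congr 1
    cases b <;> cases A.dir i <;> simp
  · simp only [opD, opP]
    rw [slideD T hT.rr T.P T.Q hT.sd1]
    congr 1
    rw [show i + 1 + 1 = i + 2 from rfl, hdir]
    cases A.dir i <;> cases A.dir (i + 1) <;> simp
  · simp only [opD, opP]
    rw [slideD T hT.rr T.Q T.P hT.sd2]
    congr 1
    rw [show i + 1 + 1 = i + 2 from rfl, hdir]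
    cases A.dir i <;> cases A.dir (i + 1) <;> simp

end Pool.Agent.N221.VV
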